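import Pool.Agent.TH490.NRC.Count

set_option autoImplicit false

namespace Pool.Agent.TH490.NRC

open Finset
open scoped LinearAlgebra.Projectivization

variable {F : Type*} [Field F] {k : ℕ}

theorem IsArc.exists_enum {n : ℕ} {K : Set (ℙ F (Fin k → F))} (hK : IsArc n K) (hn : 0 < n) :
    ∃ g : Fin n → ℙ F (Fin k → F), Function.Injective g ∧ Set.range g = K := by
  have hfin : K.Finite := Set.finite_of_ncard_pos (by rw [hK.2.1]; exact hn)
  have : Finite K := hfin
  have hc : Nat.card K = n := by rw [Nat.card_coe_set_eq, hK.2.1]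
  let e : K ≃ Fin n := Finite.equivFinOfCardEq hc
  refine ⟨fun i => (e.symm i : ℙ F (Fin k → F)), ?_, ?_⟩
  · intro i j h
    exact e.symm.injective (Subtype.ext h)
  · ext p
    constructor
    · rintro ⟨i, rfl⟩
      exact (e.symm i).2
    · intro hp
      exact ⟨e ⟨p, hp⟩, by simp⟩

theorem IsArc.sub {n n' : ℕ} {K K' : Set (ℙ F (Fin k → F))} (hK : IsArc n K) (hs : K' ⊆ K)
    (hn : K'.ncard = n') (hk : k ≤ n') : IsArc n' K' :=
  ⟨hk, hn, fun f hf h => hK.2.2 f hf (fun i => hs (h i))⟩

/-- A linear functional that kills `k` points of an arc is zero. -/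
theorem IsArc.functional {n : ℕ} {K : Set (ℙ F (Fin k → F))} (hK : IsArc n K)
    {f : Fin k → ℙ F (Fin k → F)} (hf : Function.Injective f) (h : ∀ i, f i ∈ K)
    (l : (Fin k → F) →ₗ[F] F) (hl : ∀ i, l (f i).rep = 0) : l = 0 := by
  have hli := hK.2.2 f hf h
  have hspan := hli.span_eq_top_of_card_eq_finrank' (by simp)
  apply LinearMap.ext_on hspan
  rintro _ ⟨i, rfl⟩
  simpa using hl i

/-- `A` maps the coordinate points to the points `f i` -/
def Fr (A : (Fin k → F) ≃ₗ[F] (Fin k → F)) (f : Fin k → ℙ F (Fin k → F)) : Prop :=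
  ∀ i, ∃ c : F, c ≠ 0 ∧ (f i).rep = c • A (Pi.single i 1)

theorem ne_single (A : (Fin k → F) ≃ₗ[F] (Fin k → F)) (i : Fin k) : A (Pi.single i (1 : F)) ≠ 0 := by
  intro h
  have := A.map_eq_zero_iff.1 h
  exact one_ne_zero ((Pi.single_eq_zero_iff).1 this)

theorem Fr.mk_eq {A : (Fin k → F) ≃ₗ[F] (Fin k → F)} {f : Fin k → ℙ F (Fin k → F)} (h : Fr A f)
    (i : Fin k) (h0 : A (Pi.single i 1) ≠ 0) :
    Projectivization.mk F (A (Pi.single i 1)) h0 = f i := by
  obtain ⟨c, hc, he⟩ := h i
  obtain ⟨hw, hh⟩ := mk_eq_of_smul c he (f i).rep_nonzero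
  rw [← hh, Projectivization.mk_rep]

theorem IsArc.exists_Fr {n : ℕ} {K : Set (ℙ F (Fin k → F))} (hK : IsArc n K)
    {f : Fin k → ℙ F (Fin k → F)} (hf : Function.Injective f) (h : ∀ i, f i ∈ K) :
    ∃ A : (Fin k → F) ≃ₗ[F] (Fin k → F), Fr A f := by
  have hli := hK.2.2 f hf h
  by_cases hk : Nonempty (Fin k)
  · let b := basisOfLinearIndependentOfCardEqFinrank hli (by simp)
    refine ⟨b.equivFun.symm, fun i => ⟨1, one_ne_zero, ?_⟩⟩
    have hb : b.equivFun (b i) = Pi.single i 1 := by
      ext j
      rw [Module.Basis.equivFun_self, Pi.single_apply]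
      simp only [eq_comm]
    rw [one_smul, ← hb, LinearEquiv.symm_apply_apply]
    simp [b]
  · exact ⟨LinearEquiv.refl F _, fun i => absurd ⟨i⟩ hk⟩

theorem coord_ne_zero {n : ℕ} {K : Set (ℙ F (Fin k → F))} (hK : IsArc n K)
    {f : Fin k → ℙ F (Fin k → F)} (hf : Function.Injective f) (h : ∀ i, f i ∈ K)
    {A : (Fin k → F) ≃ₗ[F] (Fin k → F)} (hA : Fr A f) {p : ℙ F (Fin k → F)} (hp : p ∈ K)
    (hpf : ∀ i, f i ≠ p) (i : Fin k) : A.symm p.rep i ≠ 0 := by
  classical
  intro h0
  set l : (Fin k → F) →ₗ[F] F := (LinearMap.proj i).comp A.symm.toLinearMap with hl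
  have hlv : ∀ v, l v = A.symm v i := fun v => rfl
  have hz : l = 0 := by
    apply hK.functional (f := Function.update f i p)
    · intro a b hab
      by_cases ha : a = i
      · by_cases hb : b = i
        · rw [ha, hb]
        · rw [ha, Function.update_self, Function.update_of_ne hb] at hab
          exact absurd hab.symm (hpf b)
      · by_cases hb : b = i
        · rw [hb, Function.update_self, Function.update_of_ne ha] at hab
          exact absurd hab (hpf a)
        · rw [Function.update_of_ne ha, Function.update_of_ne hb] at hab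
          exact hf hab
    · intro j
      by_cases hj : j = i
      · rw [hj, Function.update_self]; exact hp
      · rw [Function.update_of_ne hj]; exact h j
    · intro j
      by_cases hj : j = i
      · rw [hj, Function.update_self]; exact h0
      · rw [Function.update_of_ne hj, hlv]
        obtain ⟨c, -, hc⟩ := hA j
        rw [hc, map_smul, LinearEquiv.symm_apply_apply, Pi.smul_apply,
          Pi.single_eq_of_ne (Ne.symm hj), smul_zero]
  have := hlv (A (Pi.single i 1))
  rw [hz, LinearEquiv.symm_apply_apply, Pi.single_eq_same] at this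
  exact zero_ne_one this

theorem coord_inj {n : ℕ} {K : Set (ℙ F (Fin k → F))} (hK : IsArc n K)
    {f : Fin k → ℙ F (Fin k → F)} (hf : Function.Injective f) (h : ∀ i, f i ∈ K)
    {A : (Fin k → F) ≃ₗ[F] (Fin k → F)} (hA : Fr A f) {p p' : ℙ F (Fin k → F)} (hp : p ∈ K)
    (hp' : p' ∈ K) (hpf : ∀ i, f i ≠ p) (hpf' : ∀ i, f i ≠ p') (hpp : p ≠ p')
    {c : F} (hc : p.rep = c • A 1) {i j : Fin k} (hij : i ≠ j) :
    A.symm p'.rep i ≠ A.symm p'.rep j := by
  classical
  intro h0
  set l : (Fin k → F) →ₗ[F] F :=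
    ((LinearMap.proj i : (Fin k → F) →ₗ[F] F) - LinearMap.proj j).comp A.symm.toLinearMap
    with hl
  have hlv : ∀ v, l v = A.symm v i - A.symm v j := fun v => rfl
  set f' : Fin k → ℙ F (Fin k → F) := Function.update (Function.update f i p) j p' with hf'
  have f'j : f' j = p' := Function.update_self ..
  have f'i : f' i = p := by rw [hf', Function.update_of_ne hij, Function.update_self]
  have f'o : ∀ a, a ≠ i → a ≠ j → f' a = f a := by
    intro a ha hb
    rw [hf', Function.update_of_ne hb, Function.update_of_ne ha]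
  have hz : l = 0 := by
    apply hK.functional (f := f')
    · intro a b hab
      by_cases ha : a = i
      · by_cases hb : b = i
        · rw [ha, hb]
        · by_cases hb' : b = j
          · rw [ha, hb', f'i, f'j] at hab; exact absurd hab hpp
          · rw [ha, f'i, f'o b hb hb'] at hab; exact absurd hab.symm (hpf b)
      · by_cases ha' : a = j
        · by_cases hb : b = i
          · rw [ha', hb, f'i, f'j] at hab; exact absurd hab.symm hpp
          · by_cases hb' : b = j
            · rw [ha', hb']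
            · rw [ha', f'j, f'o b hb hb'] at hab; exact absurd hab.symm (hpf' b)
        · by_cases hb : b = i
          · rw [hb, f'i, f'o a ha ha'] at hab; exact absurd hab (hpf a)
          · by_cases hb' : b = j
            · rw [hb', f'j, f'o a ha ha'] at hab; exact absurd hab (hpf' a)
            · rw [f'o a ha ha', f'o b hb hb'] at hab; exact hf hab
    · intro a
      by_cases ha : a = i
      · rw [ha, f'i]; exact hp
      · by_cases ha' : a = j
        · rw [ha', f'j]; exact hp'
        · rw [f'o a ha ha']; exact h a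
    · intro a
      by_cases ha : a = i
      · rw [ha, f'i, hlv, hc, map_smul, LinearEquiv.symm_apply_apply]
        simp
      · by_cases ha' : a = j
        · rw [ha', f'j, hlv, h0, sub_self]
        · obtain ⟨d, -, hd⟩ := hA a
          rw [f'o a ha ha', hlv, hd, map_smul, LinearEquiv.symm_apply_apply, Pi.smul_apply,
            Pi.smul_apply, Pi.single_eq_of_ne (Ne.symm ha), Pi.single_eq_of_ne (Ne.symm ha')]
          simp
  have := hlv (A (Pi.single i 1))
  rw [hz, LinearEquiv.symm_apply_apply, Pi.single_eq_same, Pi.single_eq_of_ne hij.symm] at this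
  simp at this

/-- rescale so that a further point becomes `(1, ..., 1)` -/
theorem exists_Fr_one {n : ℕ} {K : Set (ℙ F (Fin k → F))} (hK : IsArc n K)
    {f : Fin k → ℙ F (Fin k → F)} (hf : Function.Injective f) (h : ∀ i, f i ∈ K)
    {p : ℙ F (Fin k → F)} (hp : p ∈ K) (hpf : ∀ i, f i ≠ p) :
    ∃ A : (Fin k → F) ≃ₗ[F] (Fin k → F), Fr A f ∧ p.rep = A 1 := by
  obtain ⟨A, hA⟩ := hK.exists_Fr hf h
  set w := A.symm p.rep with hw
  have hw0 : ∀ i, w i ≠ 0 := fun i => coord_ne_zero hK hf h hA hp hpf i
  let D : (Fin k → F) ≃ₗ[F] (Fin k → F) :=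
    LinearEquiv.piCongrRight (fun i => LinearEquiv.smulOfNeZero F F (w i) (hw0 i))
  have hD : ∀ v i, D v i = w i * v i := fun v i => rfl
  refine ⟨D.trans A, fun i => ?_, ?_⟩
  · obtain ⟨c, hc, he⟩ := hA i
    refine ⟨c / w i, div_ne_zero hc (hw0 i), ?_⟩
    rw [he, LinearEquiv.trans_apply]
    have : D (Pi.single i 1) = w i • Pi.single i 1 := by
      ext j
      rw [hD, Pi.smul_apply, smul_eq_mul]
      by_cases hj : j = i
      · rw [hj]
      · rw [Pi.single_eq_of_ne hj, mul_zero, mul_zero]
    rw [this, map_smul, smul_smul, div_mul_cancel₀ _ (hw0 i)]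
  · rw [LinearEquiv.trans_apply]
    have : D 1 = w := by
      ext j
      rw [hD, Pi.one_apply, mul_one]
    rw [this, hw, LinearEquiv.apply_symm_apply]

end Pool.Agent.TH490.NRC
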