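import Pool.Agent.TH490.NRC.Norm

set_option autoImplicit false

namespace Pool.Agent.TH490.NRC

open Finset

variable {F : Type*} [Field F] {m : ℕ}

/-- build a vector from its first two coordinates and the others -/
def ext2 (a b : F) (x : Fin m → F) : Fin (m + 2) → F := Fin.cons a (Fin.cons b x)

theorem ext2_0 (a b : F) (x : Fin m → F) : ext2 a b x 0 = a := rfl
theorem ext2_1 (a b : F) (x : Fin m → F) : ext2 a b x 1 = b := rfl
theorem ext2_ss (a b : F) (x : Fin m → F) (i : Fin m) : ext2 a b x i.succ.succ = x i := rfl

theorem ext2_eta (X : Fin (m + 2) → F) : ext2 (X 0) (X 1) (fun i => X i.succ.succ) = X := by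
  funext i
  refine Fin.cases rfl (fun i => ?_) i
  refine Fin.cases rfl (fun i => ?_) i
  rfl

theorem ext2_inj {a b a' b' : F} {x x' : Fin m → F} (h : ext2 a b x = ext2 a' b' x') :
    a = a' ∧ b = b' ∧ x = x' :=
  ⟨congrFun h 0, congrFun h 1, funext fun i => congrFun h i.succ.succ⟩

theorem forall_fin2 {P : Fin (m + 2) → Prop} :
    (∀ i, P i) ↔ P 0 ∧ P 1 ∧ ∀ i : Fin m, P i.succ.succ := by
  rw [Fin.forall_fin_succ, Fin.forall_fin_succ]
  rfl

theorem zero_ne_one' : (0 : Fin (m + 2)) ≠ 1 := by
  intro h; simpa using congrArg Fin.val h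

theorem succ_ne_zero' (i : Fin m) : (i.succ.succ : Fin (m + 2)) ≠ 0 := Fin.succ_ne_zero _

theorem succ_ne_one' (i : Fin m) : (i.succ.succ : Fin (m + 2)) ≠ 1 := by
  intro h
  have := congrArg Fin.val h
  simp at this

/-- pairwise independence of normalised parameters -/
theorem PI_ext2 (x y : Fin m → F) :
    PI (ext2 1 0 x) (ext2 0 1 y) ↔
      (∀ i, x i ≠ 0) ∧ (∀ i, y i ≠ 0) ∧ ∀ i j, i ≠ j → x i * y j - y i * x j ≠ 0 := by
  constructor
  · intro h
    refine ⟨fun i hi => ?_, fun i hi => ?_, fun i j hij => ?_⟩
    · have := h i.succ.succ 1 (succ_ne_one' i)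
      rw [ext2_ss, ext2_ss, ext2_1, ext2_1, hi] at this
      simp at this
    · have := h 0 i.succ.succ (succ_ne_zero' i).symm
      rw [ext2_ss, ext2_ss, ext2_0, ext2_0, hi] at this
      simp at this
    · have := h i.succ.succ j.succ.succ (by
        intro h; apply hij
        exact Fin.succ_injective _ (Fin.succ_injective _ h))
      simpa only [ext2_ss] using this
  · rintro ⟨hx, hy, hxy⟩
    have main : ∀ i j : Fin (m + 2), i < j →
        ext2 1 0 x i * ext2 0 1 y j - ext2 0 1 y i * ext2 1 0 x j ≠ 0 := by
      intro i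
      refine Fin.cases ?_ (fun i => ?_) i
      · intro j
        refine Fin.cases ?_ (fun j => ?_) j
        · intro h; exact absurd h (lt_irrefl _)
        · intro _
          refine Fin.cases ?_ (fun j => ?_) j
          · show (1 : F) * 1 - 0 * 0 ≠ 0
            simp
          · show (1 : F) * y j - 0 * x j ≠ 0
            simpa using hy j
      · refine Fin.cases ?_ (fun i => ?_) i
        · intro j
          refine Fin.cases ?_ (fun j => ?_) j
          · intro h
            exact absurd h (Fin.not_lt_zero _)
          · refine Fin.cases ?_ (fun j => ?_) j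
            · intro h
              exact absurd h (lt_irrefl _)
            · intro _
              show (0 : F) * y j - 1 * x j ≠ 0
              simpa using hx j
        · intro j
          refine Fin.cases ?_ (fun j => ?_) j
          · intro h
            exact absurd h (Fin.not_lt_zero _)
          · refine Fin.cases ?_ (fun j => ?_) j
            · intro h
              exact absurd (Fin.succ_lt_succ_iff.1 h) (Fin.not_lt_zero _)
            · intro h
              show x i * y j - y i * x j ≠ 0
              apply hxy
              intro hij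
              subst hij
              exact lt_irrefl _ h
    intro i j hij
    rcases lt_or_gt_of_ne hij with h | h
    · exact main i j h
    · have := main j i h
      intro h0
      apply this
      linear_combination -h0

theorem card_norm [Finite F] :
    Nat.card {P : (Fin (m + 2) → F) × (Fin (m + 2) → F) // Nm P.1 P.2}
      = (Nat.card F - 1) ^ m * (Nat.card F - 1).descFactorial m := by
  classical
  have : Fintype F := Fintype.ofFinite F
  let φ : (Fin m → Fˣ) × (Fin m ↪ Fˣ) →
      {P : (Fin (m + 2) → F) × (Fin (m + 2) → F) // Nm P.1 P.2} := fun p =>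
    ⟨(ext2 1 0 (fun i => (p.2 i : F) * p.1 i), ext2 0 1 (fun i => (p.1 i : F))), by
      refine ⟨(PI_ext2 _ _).2 ⟨?_, ?_, ?_⟩, rfl, rfl, rfl, rfl⟩
      · intro i; exact mul_ne_zero (p.2 i).ne_zero (p.1 i).ne_zero
      · intro i; exact (p.1 i).ne_zero
      · intro i j hij h0
        apply hij
        apply p.2.injective
        apply Units.ext
        have h1 := (p.1 i).ne_zero
        have h2 := (p.1 j).ne_zero
        have h3 : ((p.1 i : F) * p.1 j) * ((p.2 i : F) - p.2 j) = 0 := by
          linear_combination h0
        rcases mul_eq_zero.1 h3 with h4 | h4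
        · exact absurd h4 (mul_ne_zero h1 h2)
        · exact sub_eq_zero.1 h4⟩
  have hφ : Function.Bijective φ := by
    constructor
    · rintro ⟨y, z⟩ ⟨y', z'⟩ h
      have h1 := congrArg Subtype.val h
      have hX := (ext2_inj (congrArg Prod.fst h1)).2.2
      have hY := (ext2_inj (congrArg Prod.snd h1)).2.2
      have hy : y = y' := funext fun i => Units.ext (congrFun hY i)
      subst hy
      have hz : z = z' := by
        apply DFunLike.ext
        intro i
        apply Units.ext
        have := congrFun hX i
        exact mul_right_cancel₀ (y i).ne_zero this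
      rw [hz]
    · rintro ⟨⟨X, Y⟩, hPI, hX0, hX1, hY0, hY1⟩
      simp only at hPI hX0 hX1 hY0 hY1
      have eX : ext2 1 0 (fun i => X i.succ.succ) = X := by
        conv_rhs => rw [← ext2_eta X, hX0, hX1]
      have eY : ext2 0 1 (fun i => Y i.succ.succ) = Y := by
        conv_rhs => rw [← ext2_eta Y, hY0, hY1]
      have hP' : PI (ext2 1 0 (fun i => X i.succ.succ)) (ext2 0 1 (fun i => Y i.succ.succ)) := by
        rw [eX, eY]; exact hPI
      obtain ⟨hx, hy, hxy⟩ := (PI_ext2 _ _).1 hP'
      refine ⟨(fun i => Units.mk0 (Y i.succ.succ) (hy i),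
        ⟨fun i => Units.mk0 (X i.succ.succ / Y i.succ.succ) (div_ne_zero (hx i) (hy i)), ?_⟩), ?_⟩
      · intro i j hij
        by_contra hne
        apply hxy i j hne
        have h1 := congrArg Units.val hij
        simp only [Units.val_mk0] at h1
        rw [div_eq_div_iff (hy i) (hy j)] at h1
        linear_combination h1
      · apply Subtype.ext
        apply Prod.ext
        · refine Eq.trans ?_ eX
          show ext2 1 0 _ = ext2 1 0 _
          congr 1
          funext i
          simp only [Function.Embedding.coeFn_mk, Units.val_mk0]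
          exact div_mul_cancel₀ _ (hy i)
        · exact eY
  rw [← Nat.card_congr (Equiv.ofBijective φ hφ), Nat.card_prod, Nat.card_fun, Nat.card_units,
    Nat.card_eq_fintype_card (α := Fin m), Fintype.card_fin,
    Nat.card_eq_fintype_card (α := Fin m ↪ Fˣ), Fintype.card_embedding_eq, Fintype.card_fin,
    ← Nat.card_eq_fintype_card (α := Fˣ), Nat.card_units]

theorem card_norm1 [Finite F] :
    Nat.card {P : (Fin (m + 2) → F) × (Fin (m + 2) → F) // Nm P.1 P.2 ∧ ∀ i, P.1 i + P.2 i = 1}
      = (Nat.card F - 2).descFactorial m := by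
  classical
  have : Fintype F := Fintype.ofFinite F
  let T : Set F := {0, 1}ᶜ
  have hT : ∀ x : F, x ∈ T ↔ x ≠ 0 ∧ x ≠ 1 := by
    intro x; simp [T]
  let φ : (Fin m ↪ T) →
      {P : (Fin (m + 2) → F) × (Fin (m + 2) → F) // Nm P.1 P.2 ∧ ∀ i, P.1 i + P.2 i = 1} :=
    fun z =>
    ⟨(ext2 1 0 (fun i => (z i : F)), ext2 0 1 (fun i => 1 - (z i : F))), by
      refine ⟨⟨(PI_ext2 _ _).2 ⟨?_, ?_, ?_⟩, rfl, rfl, rfl, rfl⟩, ?_⟩
      · intro i; exact ((hT _).1 (z i).2).1
      · intro i; exact sub_ne_zero.2 ((hT _).1 (z i).2).2.symm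
      · intro i j hij h0
        apply hij
        apply z.injective
        apply Subtype.ext
        linear_combination h0
      · rw [forall_fin2]
        refine ⟨?_, ?_, fun i => ?_⟩
        · show (1 : F) + 0 = 1; ring
        · show (0 : F) + 1 = 1; ring
        · show (z i : F) + (1 - z i) = 1; ring⟩
  have hφ : Function.Bijective φ := by
    constructor
    · intro z z' h
      have h1 := congrArg Subtype.val h
      have hX := (ext2_inj (congrArg Prod.fst h1)).2.2
      apply DFunLike.ext
      intro i
      apply Subtype.ext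
      exact congrFun hX i
    · rintro ⟨⟨X, Y⟩, ⟨hPI, hX0, hX1, hY0, hY1⟩, hsum⟩
      simp only at hPI hX0 hX1 hY0 hY1 hsum
      have eX : ext2 1 0 (fun i => X i.succ.succ) = X := by
        conv_rhs => rw [← ext2_eta X, hX0, hX1]
      have eY : ext2 0 1 (fun i => Y i.succ.succ) = Y := by
        conv_rhs => rw [← ext2_eta Y, hY0, hY1]
      have hP' : PI (ext2 1 0 (fun i => X i.succ.succ)) (ext2 0 1 (fun i => Y i.succ.succ)) := by
        rw [eX, eY]; exact hPI
      obtain ⟨hx, hy, hxy⟩ := (PI_ext2 _ _).1 hP'
      have hYX : ∀ i : Fin m, Y i.succ.succ = 1 - X i.succ.succ := by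
        intro i; linear_combination hsum i.succ.succ
      refine ⟨⟨fun i => ⟨X i.succ.succ, (hT _).2 ⟨hx i, ?_⟩⟩, ?_⟩, ?_⟩
      · intro h1
        apply hy i
        rw [hYX, h1, sub_self]
      · intro i j hij
        by_contra hne
        apply hxy i j hne
        have h1 : X i.succ.succ = X j.succ.succ := congrArg Subtype.val hij
        rw [hYX, hYX, h1]
        ring
      · apply Subtype.ext
        apply Prod.ext
        · exact eX
        · refine Eq.trans ?_ eY
          show ext2 0 1 _ = ext2 0 1 _
          congr 1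
          funext i
          exact (hYX i).symm
  have hcT : Nat.card T = Nat.card F - 2 := by
    rw [Nat.card_coe_set_eq, Set.ncard_compl, Set.ncard_pair zero_ne_one]
  rw [← Nat.card_congr (Equiv.ofBijective φ hφ), Nat.card_eq_fintype_card,
    Fintype.card_embedding_eq, Fintype.card_fin, ← Nat.card_eq_fintype_card, hcT]

end Pool.Agent.TH490.NRC
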