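import Mathlib

set_option autoImplicit false

namespace Pool.Agent.TH490.NRC

open Finset

variable {F : Type*} [Field F]

/-- A product of linear forms `a y - b x` is a combination of monomials. -/
theorem prod_form {ι : Type*} [DecidableEq ι] (X Y : ι → F) (S : Finset ι) :
    ∃ m : ℕ → F, (∀ l, S.card < l → m l = 0) ∧ ∀ a b : F,
      ∏ j ∈ S, (a * Y j - b * X j)
        = ∑ l ∈ range (S.card + 1), m l * (a ^ (S.card - l) * b ^ l) := by
  induction S using Finset.induction_on with
  | empty =>
    refine ⟨fun l => if l = 0 then 1 else 0, ?_, ?_⟩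
    · intro l hl
      simp only [card_empty] at hl
      exact if_neg (by omega)
    · intro a b
      simp
  | insert i S hi ih =>
    obtain ⟨m, hm0, hm⟩ := ih
    refine ⟨fun l => Y i * m l - X i * (if l = 0 then 0 else m (l - 1)), ?_, ?_⟩
    · intro l hl
      rw [card_insert_of_notMem hi] at hl
      simp only
      rw [hm0 l (by omega), if_neg (by omega), hm0 (l - 1) (by omega)]
      ring
    · intro a b
      rw [prod_insert hi, hm a b, card_insert_of_notMem hi]
      set n := S.card with hn
      have h1 : ∑ l ∈ range (n + 1 + 1), Y i * m l * (a ^ (n + 1 - l) * b ^ l)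
          = a * Y i * ∑ l ∈ range (n + 1), m l * (a ^ (n - l) * b ^ l) := by
        rw [sum_range_succ, hm0 (n + 1) (by omega), mul_sum]
        rw [mul_zero, zero_mul, add_zero]
        apply sum_congr rfl
        intro l hl
        rw [mem_range] at hl
        have : n + 1 - l = (n - l) + 1 := by omega
        rw [this, pow_succ]
        ring
      have h2 : ∑ l ∈ range (n + 1 + 1),
            X i * (if l = 0 then 0 else m (l - 1)) * (a ^ (n + 1 - l) * b ^ l)
          = b * X i * ∑ l ∈ range (n + 1), m l * (a ^ (n - l) * b ^ l) := by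
        rw [sum_range_succ', mul_sum]
        simp only [if_true, mul_zero, zero_mul, add_zero]
        apply sum_congr rfl
        intro l hl
        rw [mem_range] at hl
        rw [if_neg (by omega)]
        have : n + 1 - (l + 1) = n - l := by omega
        rw [this, pow_succ]
        simp only [Nat.add_sub_cancel]
        ring
      have h3 : ∀ l, (Y i * m l - X i * (if l = 0 then 0 else m (l - 1))) *
          (a ^ (n + 1 - l) * b ^ l)
          = Y i * m l * (a ^ (n + 1 - l) * b ^ l)
            - X i * (if l = 0 then 0 else m (l - 1)) * (a ^ (n + 1 - l) * b ^ l) := by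
        intro l; ring
      rw [sum_congr rfl (fun l _ => h3 l), sum_sub_distrib, h1, h2]
      ring

/-- the monomials of degree `k - 1` in two variables -/
def mon (k : ℕ) (a b : F) : Fin k → F := fun i => a ^ (k - 1 - (i : ℕ)) * b ^ (i : ℕ)

/-- the products of `k - 1` of the `k` linear forms `a Y_j - b X_j` -/
def Phi {k : ℕ} (X Y : Fin k → F) (a b : F) : Fin k → F :=
  fun i => ∏ j ∈ univ.erase i, (a * Y j - b * X j)

theorem exists_M {k : ℕ} (X Y : Fin k → F) :
    ∃ M : (Fin k → F) →ₗ[F] (Fin k → F), ∀ a b, M (mon k a b) = Phi X Y a b := by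
  choose m hm0 hm using fun i : Fin k => prod_form X Y (univ.erase i)
  refine ⟨LinearMap.pi fun i => ∑ l : Fin k, m i l • LinearMap.proj l, ?_⟩
  intro a b
  ext i
  have hc : (univ.erase i).card = k - 1 := by
    rw [card_erase_of_mem (mem_univ i), card_univ, Fintype.card_fin]
  have hk : 0 < k := i.pos
  simp only [LinearMap.pi_apply, LinearMap.sum_apply, LinearMap.smul_apply, LinearMap.proj_apply,
    smul_eq_mul, Phi]
  rw [hm i a b, hc]
  have : k - 1 + 1 = k := by omega
  rw [this, Finset.sum_range]
  rfl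

/-- pairwise independence -/
def PI {k : ℕ} (X Y : Fin k → F) : Prop := ∀ i j, i ≠ j → X i * Y j - Y i * X j ≠ 0

theorem Phi_self {k : ℕ} {X Y : Fin k → F} (h : PI X Y) (i : Fin k) :
    ∃ d : F, d ≠ 0 ∧ Phi X Y (X i) (Y i) = d • Pi.single i 1 := by
  refine ⟨∏ j ∈ univ.erase i, (X i * Y j - Y i * X j), ?_, ?_⟩
  · rw [prod_ne_zero_iff]
    intro j hj
    exact h i j (ne_of_mem_erase hj).symm
  · ext l
    by_cases hl : l = i
    · subst hl
      simp [Phi]
    · simp only [Phi, Pi.smul_apply, smul_eq_mul]
      rw [Pi.single_eq_of_ne hl, mul_zero]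
      apply prod_eq_zero (i := i)
      · exact mem_erase.2 ⟨Ne.symm hl, mem_univ _⟩
      · ring

theorem exists_Me {k : ℕ} {X Y : Fin k → F} (h : PI X Y) :
    ∃ M : (Fin k → F) ≃ₗ[F] (Fin k → F), ∀ a b, M (mon k a b) = Phi X Y a b := by
  obtain ⟨M, hM⟩ := exists_M X Y
  have hs : Function.Surjective M := by
    rw [← LinearMap.range_eq_top, eq_top_iff, ← (Pi.basisFun F (Fin k)).span_eq, Submodule.span_le]
    rintro _ ⟨i, rfl⟩
    obtain ⟨d, hd, he⟩ := Phi_self h i
    refine ⟨d⁻¹ • mon k (X i) (Y i), ?_⟩
    rw [map_smul, hM, he, smul_smul, inv_mul_cancel₀ hd, one_smul, Pi.basisFun_apply]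
  exact ⟨LinearEquiv.ofBijective M ⟨LinearMap.injective_iff_surjective.2 hs, hs⟩,
    fun a b => hM a b⟩

end Pool.Agent.TH490.NRC
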