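import Pool.Agent.TH490.NRC.Defs
import Pool.Agent.TH490.NRC.Form

set_option autoImplicit false

namespace Pool.Agent.TH490.NRC

open Finset
open scoped LinearAlgebra.Projectivization

variable {F : Type*} [Field F] {k : ℕ}

/-- the curve with parameters `(X_i, Y_i)` through the points `A e_i` -/
def curve (A : (Fin k → F) ≃ₗ[F] (Fin k → F)) (X Y : Fin k → F) : Set (ℙ F (Fin k → F)) :=
  {p | ∃ (a b : F) (h : A (Phi X Y a b) ≠ 0), p = Projectivization.mk F (A (Phi X Y a b)) h}

theorem nrcVec_some (t : F) : nrcVec k (some t) = mon k t 1 := by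
  ext i; simp [nrcVec, mon]

theorem nrcVec_none : nrcVec k (none : Option F) = mon k 1 0 := by
  ext i
  simp only [nrcVec, mon, one_pow, one_mul]
  split_ifs with h
  · rw [h, pow_zero]
  · rw [zero_pow h]

theorem mon_eq (a b : F) : ∃ (c : F) (t : Option F), mon k a b = c • nrcVec k t := by
  by_cases hb : b = 0
  · refine ⟨a ^ (k - 1), none, ?_⟩
    rw [nrcVec_none]
    ext i
    simp only [mon, hb, one_pow, one_mul, Pi.smul_apply, smul_eq_mul]
    by_cases h : (i : ℕ) = 0
    · rw [h]; simp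
    · rw [zero_pow h]; ring
  · refine ⟨b ^ (k - 1), some (a / b), ?_⟩
    rw [nrcVec_some]
    ext i
    simp only [mon, one_pow, mul_one, Pi.smul_apply, smul_eq_mul]
    have hi : (i : ℕ) ≤ k - 1 := by have := i.2; omega
    have : b ^ (k - 1) = b ^ (k - 1 - (i : ℕ)) * b ^ (i : ℕ) := by
      rw [← pow_add]; congr 1; omega
    rw [this, div_pow]
    field_simp

theorem nrcVec_eq (t : Option F) : ∃ a b : F, nrcVec k t = mon k a b := by
  cases t with
  | none => exact ⟨1, 0, nrcVec_none⟩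
  | some t => exact ⟨t, 1, nrcVec_some t⟩

/-- mk of proportional vectors -/
theorem mk_eq_of_smul {V : Type*} [AddCommGroup V] [Module F V] {v w : V} (c : F)
    (h : v = c • w) (hv : v ≠ 0) :
    ∃ hw : w ≠ 0, Projectivization.mk F v hv = Projectivization.mk F w hw := by
  have hw : w ≠ 0 := by
    rintro rfl; exact hv (by rw [h, smul_zero])
  refine ⟨hw, ?_⟩
  rw [Projectivization.mk_eq_mk_iff']
  exact ⟨c, h.symm⟩

theorem curve_isNRC (A : (Fin k → F) ≃ₗ[F] (Fin k → F)) {X Y : Fin k → F} (h : PI X Y) :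
    IsNRC (curve A X Y) := by
  obtain ⟨M, hM⟩ := exists_Me h
  refine ⟨M.trans A, ?_⟩
  ext p
  constructor
  · rintro ⟨a, b, h0, rfl⟩
    obtain ⟨c, t, hc⟩ := mon_eq (k := k) a b
    have e : A (Phi X Y a b) = c • (M.trans A) (nrcVec k t) := by
      rw [← hM, hc, LinearEquiv.trans_apply, map_smul, map_smul]
    obtain ⟨hw, hh⟩ := mk_eq_of_smul c e h0
    exact ⟨t, hw, hh⟩
  · rintro ⟨t, h0, rfl⟩
    obtain ⟨a, b, hc⟩ := nrcVec_eq (k := k) t
    have e : (M.trans A) (nrcVec k t) = (1 : F) • A (Phi X Y a b) := by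
      rw [← hM, hc, LinearEquiv.trans_apply, one_smul]
    obtain ⟨hw, hh⟩ := mk_eq_of_smul 1 e h0
    exact ⟨a, b, hw, hh⟩

/-- scaling of the parameters -/
theorem Phi_scale (X Y l : Fin k → F) (hl : ∀ i, l i ≠ 0) (a b : F) :
    (fun i => (l i)⁻¹ * Phi X Y a b i) = (∏ i, l i)⁻¹ • Phi (fun i => l i * X i) (fun i => l i * Y i) a b := by
  ext i
  simp only [Phi, Pi.smul_apply, smul_eq_mul]
  have h1 : ∏ j ∈ univ.erase i, (a * (l j * Y j) - b * (l j * X j))
      = (∏ j ∈ univ.erase i, l j) * ∏ j ∈ univ.erase i, (a * Y j - b * X j) := by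
    rw [← prod_mul_distrib]
    exact prod_congr rfl (fun j _ => by ring)
  have h2 : ∏ j, l j = l i * ∏ j ∈ univ.erase i, l j := (mul_prod_erase univ l (mem_univ i)).symm
  have h3 : ∏ j ∈ univ.erase i, l j ≠ 0 := prod_ne_zero_iff.2 (fun j _ => hl j)
  have h4 := hl i
  rw [h1, h2, mul_inv]
  field_simp

/-- every normal rational curve through the points `A e_i` is a `curve A X Y` -/
theorem exists_curve (hk : 2 ≤ k) (A : (Fin k → F) ≃ₗ[F] (Fin k → F)) {C : Set (ℙ F (Fin k → F))}
    (hC : IsNRC C)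
    (hA : ∀ i, ∀ h : A (Pi.single i 1) ≠ 0, Projectivization.mk F (A (Pi.single i 1)) h ∈ C) :
    ∃ X Y : Fin k → F, PI X Y ∧ C = curve A X Y := by
  obtain ⟨B, rfl⟩ := hC
  have hne : ∀ i, A (Pi.single i (1 : F)) ≠ 0 := by
    intro i h
    have := A.map_eq_zero_iff.1 h
    exact one_ne_zero ((Pi.single_eq_zero_iff).1 this)
  have hA' : ∀ i, ∃ (a b c : F), c ≠ 0 ∧ B (mon k a b) = c • A (Pi.single i 1) := by
    intro i
    obtain ⟨t, h, ht⟩ := hA i (hne i)
    obtain ⟨a, b, hab⟩ := nrcVec_eq (k := k) t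
    rw [Projectivization.mk_eq_mk_iff] at ht
    obtain ⟨c, hc⟩ := ht
    refine ⟨a, b, (c : F)⁻¹, inv_ne_zero c.ne_zero, ?_⟩
    rw [← hab, ← hc, Units.smul_def, smul_smul, inv_mul_cancel₀ c.ne_zero, one_smul]
  choose X Y c hc0 hc using hA'
  -- pairwise independence
  have hPI : PI X Y := by
    intro i j hij h0
    -- mon (X i) (Y i) and mon (X j) (Y j) are proportional
    have key : ∀ l m : Fin k, l ≠ m → ∀ s : F, mon k (X l) (Y l) ≠ s • mon k (X m) (Y m) := by
      intro l m hlm s hs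
      have h1 : c l • A (Pi.single l 1) = s • (c m • A (Pi.single m 1)) := by
        rw [← hc l, ← hc m, hs, map_smul]
      rw [smul_smul, ← map_smul, ← map_smul] at h1
      have h2 := congrFun (A.injective h1) l
      simp only [Pi.smul_apply, smul_eq_mul, Pi.single_eq_same, mul_one] at h2
      rw [Pi.single_eq_of_ne hlm, mul_zero] at h2
      exact hc0 l h2
    have hz : ∀ l : Fin k, ¬ (X l = 0 ∧ Y l = 0) := by
      rintro l ⟨hx, hy⟩
      have h1 : mon k (X l) (Y l) = 0 := by
        ext i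
        simp only [mon, hx, hy, Pi.zero_apply]
        by_cases hi : (i : ℕ) = 0
        · rw [zero_pow (by omega), zero_mul]
        · rw [zero_pow hi, mul_zero]
      have h2 := hc l
      rw [h1, map_zero] at h2
      rcases smul_eq_zero.1 h2.symm with h3 | h3
      · exact hc0 l h3
      · exact hne l h3
    by_cases hy : Y j = 0
    · have hx : X j ≠ 0 := fun hx => hz j ⟨hx, hy⟩
      have hyi : Y i = 0 := by
        rw [hy, mul_zero, zero_sub, neg_eq_zero] at h0
        exact (mul_eq_zero.1 h0).resolve_right hx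
      apply key i j hij ((X i / X j) ^ (k - 1))
      ext l
      simp only [mon, hyi, hy, Pi.smul_apply, smul_eq_mul]
      by_cases hl : (l : ℕ) = 0
      · rw [hl, pow_zero, mul_one, mul_one, Nat.sub_zero, ← mul_pow,
          div_mul_cancel₀ _ hx]
      · rw [zero_pow hl]; ring
    · by_cases hyi : Y i = 0
      · rw [hyi, zero_mul, sub_zero] at h0
        have : X i = 0 := (mul_eq_zero.1 h0).resolve_right hy
        exact hz i ⟨this, hyi⟩
      · apply key i j hij ((Y i / Y j) ^ (k - 1))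
        have hx : X i = (Y i / Y j) * X j := by
          field_simp
          linear_combination h0
        ext l
        simp only [mon, Pi.smul_apply, smul_eq_mul]
        have hi : (l : ℕ) ≤ k - 1 := by have := l.2; omega
        have e1 : (Y i / Y j) ^ (k - 1)
            = (Y i / Y j) ^ (k - 1 - (l : ℕ)) * (Y i / Y j) ^ (l : ℕ) := by
          rw [← pow_add]; congr 1; omega
        have e2 : Y i ^ (l : ℕ) = (Y i / Y j) ^ (l : ℕ) * Y j ^ (l : ℕ) := by
          rw [← mul_pow, div_mul_cancel₀ _ hy]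
        rw [e1, e2, hx, mul_pow]
        ring
  obtain ⟨M, hM⟩ := exists_Me hPI
  choose d hd0 hd using fun i => Phi_self hPI i
  -- B = A D M
  set r : Fin k → F := fun i => c i / d i with hr
  have hr0 : ∀ i, r i ≠ 0 := fun i => div_ne_zero (hc0 i) (hd0 i)
  have hBM : ∀ v : Fin k → F, B (M.symm v) = A (fun i => r i * v i) := by
    have : (M.symm.trans B : (Fin k → F) ≃ₗ[F] (Fin k → F)).toLinearMap
        = (A.toLinearMap).comp (LinearMap.pi fun i => r i • LinearMap.proj i) := by
      apply (Pi.basisFun F (Fin k)).ext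
      intro i
      simp only [Pi.basisFun_apply, LinearEquiv.coe_coe, LinearEquiv.trans_apply,
        LinearMap.comp_apply]
      have e1 : M.symm (Pi.single i 1) = (d i)⁻¹ • mon k (X i) (Y i) := by
        rw [LinearEquiv.symm_apply_eq, map_smul, hM, hd, smul_smul, inv_mul_cancel₀ (hd0 i),
          one_smul]
      rw [e1, map_smul, hc, smul_smul, ← map_smul]
      congr 1
      ext l
      simp only [Pi.smul_apply, smul_eq_mul, LinearMap.pi_apply, LinearMap.smul_apply,
        LinearMap.proj_apply]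
      by_cases hl : l = i
      · subst hl
        simp only [Pi.single_eq_same, hr]
        field_simp
      · rw [Pi.single_eq_of_ne hl]; ring
    intro v
    have h1 := LinearMap.congr_fun this v
    simp only [LinearEquiv.coe_coe, LinearEquiv.trans_apply, LinearMap.comp_apply] at h1
    rw [h1]
    congr 1
  refine ⟨fun i => (r i)⁻¹ * X i, fun i => (r i)⁻¹ * Y i, ?_, ?_⟩
  · intro i j hij
    have h1 := hPI i j hij
    have e : (r i)⁻¹ * X i * ((r j)⁻¹ * Y j) - (r i)⁻¹ * Y i * ((r j)⁻¹ * X j)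
        = (r i)⁻¹ * (r j)⁻¹ * (X i * Y j - Y i * X j) := by ring
    rw [e]
    exact mul_ne_zero (mul_ne_zero (inv_ne_zero (hr0 i)) (inv_ne_zero (hr0 j))) h1
  · have hmain : ∀ a b : F, B (mon k a b)
        = (∏ i, (r i)⁻¹)⁻¹ • A (Phi (fun i => (r i)⁻¹ * X i) (fun i => (r i)⁻¹ * Y i) a b) := by
      intro a b
      rw [← map_smul, ← Phi_scale X Y (fun i => (r i)⁻¹) (fun i => inv_ne_zero (hr0 i)) a b]
      have h1 := hBM (Phi X Y a b)
      rw [← hM, LinearEquiv.symm_apply_apply] at h1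
      rw [h1, hM]
      simp only [inv_inv]
    have hP : (∏ i, (r i)⁻¹) ≠ 0 := prod_ne_zero_iff.2 (fun i _ => inv_ne_zero (hr0 i))
    ext p
    constructor
    · rintro ⟨t, h0, rfl⟩
      obtain ⟨a, b, hab⟩ := nrcVec_eq (k := k) t
      have e : B (nrcVec k t) = (∏ i, (r i)⁻¹)⁻¹ •
          A (Phi (fun i => (r i)⁻¹ * X i) (fun i => (r i)⁻¹ * Y i) a b) := by rw [hab, hmain]
      obtain ⟨hw, hh⟩ := mk_eq_of_smul _ e h0
      exact ⟨a, b, hw, hh⟩
    · rintro ⟨a, b, h0, rfl⟩
      obtain ⟨s, t, hs⟩ := mon_eq (k := k) a b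
      have e : A (Phi (fun i => (r i)⁻¹ * X i) (fun i => (r i)⁻¹ * Y i) a b)
          = ((∏ i, (r i)⁻¹) * s) • B (nrcVec k t) := by
        have h1 := hmain a b
        rw [hs, map_smul] at h1
        rw [mul_smul, h1, smul_smul, mul_inv_cancel₀ hP, one_smul]
      obtain ⟨hw, hh⟩ := mk_eq_of_smul _ e h0
      exact ⟨t, hw, hh⟩

end Pool.Agent.TH490.NRC
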