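import Mathlib

set_option autoImplicit false

/-!
Normal rational curves and arcs in `PG(k-1,q)` (definitions used in the statement).
-/

namespace Pool.Agent.TH490.NRC

open scoped LinearAlgebra.Projectivization

/-- The coordinate vector `(t^r, t^(r-1), ..., t, 1)`, `r = k - 1`; the parameter `none` stands for
`t = ∞` and gives `(1, 0, ..., 0)`. -/
def nrcVec {F : Type*} [Field F] (k : ℕ) : Option F → Fin k → F
  | some t => fun i => t ^ (k - 1 - (i : ℕ))
  | none => fun i => if (i : ℕ) = 0 then 1 else 0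

/-- A normal rational curve of `PG(k-1,q)`: the image of the standard one,
`{(t^r, ..., t, 1) : t ∈ F ∪ {∞}}`, under an invertible linear map. -/
def IsNRC {F : Type*} [Field F] {k : ℕ} (C : Set (ℙ F (Fin k → F))) : Prop :=
  ∃ A : (Fin k → F) ≃ₗ[F] (Fin k → F),
    C = {p | ∃ (t : Option F) (h : A (nrcVec k t) ≠ 0),
      p = Projectivization.mk F (A (nrcVec k t)) h}

/-- An `n`-arc of `PG(k-1,q)`: `n ≥ k` points, any `k` of which have linearly independent
coordinate vectors. -/
def IsArc {F : Type*} [Field F] {k : ℕ} (n : ℕ) (K : Set (ℙ F (Fin k → F))) : Prop :=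
  k ≤ n ∧ K.ncard = n ∧ ∀ f : Fin k → ℙ F (Fin k → F), Function.Injective f →
    (∀ i, f i ∈ K) → LinearIndependent F (fun i => (f i).rep)

/-- every `n`-arc of `PG(k-1,q)` is contained in a normal rational curve -/
def AllRational (F : Type*) [Field F] (k n : ℕ) : Prop :=
  ∀ K : Set (ℙ F (Fin k → F)), IsArc n K → ∃ C, IsNRC C ∧ K ⊆ C

/-- The number of normal rational curves through an `n`-arc of `PG(k-1,q)`:
`(q-1)^(k-2) (q-1)(q-2)...(q-k+2)` for `n = k`, `(q-2)(q-3)...(q-k+1)` for `n = k + 1`,
`1` for `n ≥ k + 2`. -/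
def curveCount (q k n : ℕ) : ℕ :=
  if n = k then (q - 1) ^ (k - 2) * (q - 1).descFactorial (k - 2)
  else if n = k + 1 then (q - 2).descFactorial (k - 2)
  else 1

end Pool.Agent.TH490.NRC
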