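import Pool.Agent.TH490.NRC.Main

set_option autoImplicit false

namespace Pool.Agent.TH490.NRC

open Finset
open scoped LinearAlgebra.Projectivization

variable {F : Type*} [Field F]

/-! ### the point `PG(0,q)` -/

theorem eq_point (p q : ℙ F (Fin 1 → F)) : p = q := by
  induction p using Projectivization.ind with
  | h v hv =>
    induction q using Projectivization.ind with
    | h w hw =>
      rw [Projectivization.mk_eq_mk_iff']
      have hv0 : v 0 ≠ 0 := by
        intro h; apply hv; ext i; rw [Subsingleton.elim i 0, h]; rfl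
      have hw0 : w 0 ≠ 0 := by
        intro h; apply hw; ext i; rw [Subsingleton.elim i 0, h]; rfl
      refine ⟨v 0 / w 0, ?_⟩
      ext i
      rw [Subsingleton.elim i 0, Pi.smul_apply, smul_eq_mul, div_mul_cancel₀ _ hw0]

theorem nrc_one_iff (C : Set (ℙ F (Fin 1 → F))) : IsNRC C ↔ C = Set.univ := by
  have hne : ∀ A : (Fin 1 → F) ≃ₗ[F] (Fin 1 → F), A (nrcVec 1 (none : Option F)) ≠ 0 := by
    intro A h
    have := A.map_eq_zero_iff.1 h
    have h1 := congrFun this 0
    simp [nrcVec] at h1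
  constructor
  · rintro ⟨A, rfl⟩
    ext p
    simp only [Set.mem_ofPred_eq, Set.mem_univ, iff_true]
    exact ⟨none, hne A, eq_point _ _⟩
  · rintro rfl
    refine ⟨LinearEquiv.refl F _, ?_⟩
    ext p
    simp only [Set.mem_ofPred_eq, Set.mem_univ, true_iff]
    exact ⟨none, hne _, eq_point _ _⟩

theorem count_one [Finite F] (n : ℕ) (K : Set (ℙ F (Fin 1 → F))) (_hK : IsArc n K) :
    Nat.card {C : Set (ℙ F (Fin 1 → F)) // IsNRC C ∧ K ⊆ C} = curveCount (Nat.card F) 1 n := by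
  have h1 : curveCount (Nat.card F) 1 n = 1 := by
    unfold curveCount
    split_ifs <;> simp
  rw [h1, Nat.card_eq_one_iff_unique]
  constructor
  · constructor
    rintro ⟨C, hC, -⟩ ⟨C', hC', -⟩
    apply Subtype.ext
    exact ((nrc_one_iff C).1 hC).trans ((nrc_one_iff C').1 hC').symm
  · exact ⟨⟨Set.univ, (nrc_one_iff _).2 rfl, Set.subset_univ _⟩⟩

theorem all_one (n : ℕ) : AllRational F 1 n := fun K _ =>
  ⟨Set.univ, (nrc_one_iff _).2 rfl, Set.subset_univ K⟩

/-! ### dimension at least one -/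

theorem count_ge_two [Finite F] {m : ℕ} (hq : m + 2 < Nat.card F) (n : ℕ)
    (K : Set (ℙ F (Fin (m + 2) → F))) (hK : IsArc n K) (h : ∃ C, IsNRC C ∧ K ⊆ C) :
    Nat.card {C : Set (ℙ F (Fin (m + 2) → F)) // IsNRC C ∧ K ⊆ C}
      = curveCount (Nat.card F) (m + 2) n := by
  have hkn := hK.1
  unfold curveCount
  split_ifs with h1 h2
  · subst h1
    rw [card_k hq hK, Nat.add_sub_cancel]
  · subst h2
    rw [card_k1 hq hK, Nat.add_sub_cancel]
  · rw [Nat.card_eq_one_iff_unique]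
    constructor
    · constructor
      rintro ⟨C, hC, hKC⟩ ⟨C', hC', hKC'⟩
      exact Subtype.ext (unique_nrc hK (by omega) hC hC' hKC hKC')
    · obtain ⟨C, hC⟩ := h
      exact ⟨⟨C, hC⟩⟩

theorem all_small [Finite F] {m : ℕ} (hq : m + 2 < Nat.card F) (n : ℕ) (h : n ≤ m + 2 + 2) :
    AllRational F (m + 2) n := by
  intro K hK
  have hkn := hK.1
  have hcases : n = m + 2 ∨ n = m + 2 + 1 ∨ n = m + 2 + 2 := by omega
  rcases hcases with rfl | rfl | rfl
  · have h1 := card_k hq hK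
    have h2 : Nat.card {C : Set (ℙ F (Fin (m + 2) → F)) // IsNRC C ∧ K ⊆ C} ≠ 0 := by
      rw [h1]
      refine mul_ne_zero (pow_ne_zero _ (by omega)) ?_
      rw [Ne, Nat.descFactorial_eq_zero_iff_lt]
      omega
    obtain ⟨⟨C, hC⟩⟩ := (Nat.card_ne_zero.1 h2).1
    exact ⟨C, hC⟩
  · have h1 := card_k1 hq hK
    have h2 : Nat.card {C : Set (ℙ F (Fin (m + 2) → F)) // IsNRC C ∧ K ⊆ C} ≠ 0 := by
      rw [h1, Ne, Nat.descFactorial_eq_zero_iff_lt]
      omega
    obtain ⟨⟨C, hC⟩⟩ := (Nat.card_ne_zero.1 h2).1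
    exact ⟨C, hC⟩
  · exact exists_nrc hK

theorem all_succ {m : ℕ} (n : ℕ) (hn : m + 2 + 3 ≤ n) (h : AllRational F (m + 2) n) :
    AllRational F (m + 2) (n + 1) := by
  intro K hK
  obtain ⟨g, hg, hgK⟩ := hK.exists_enum (by omega)
  have hgm : ∀ i, g i ∈ K := fun i => hgK ▸ ⟨i, rfl⟩
  have hfin : K.Finite := Set.finite_of_ncard_pos (by rw [hK.2.1]; omega)
  set a := g ⟨0, by omega⟩ with ha
  set b := g ⟨1, by omega⟩ with hb
  have hab : a ≠ b := fun h => by
    have := congrArg Fin.val (hg h)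
    simp at this
  have haK : a ∈ K := hgm _
  have hbK : b ∈ K := hgm _
  have c1 : (K \ {a}).ncard = n := by
    rw [Set.ncard_sdiff_singleton_of_mem haK, hK.2.1]; rfl
  have c2 : (K \ {b}).ncard = n := by
    rw [Set.ncard_sdiff_singleton_of_mem hbK, hK.2.1]; rfl
  have c3 : ((K \ {a}) \ {b}).ncard = n - 1 := by
    rw [Set.ncard_sdiff_singleton_of_mem (by exact ⟨hbK, fun h => hab h.symm⟩), c1]
  obtain ⟨C1, hC1, hK1⟩ := h _ (hK.sub Set.sdiff_subset c1 (by omega))
  obtain ⟨C2, hC2, hK2⟩ := h _ (hK.sub Set.sdiff_subset c2 (by omega))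
  have hK3 : IsArc (n - 1) ((K \ {a}) \ {b}) :=
    hK.sub (Set.sdiff_subset.trans Set.sdiff_subset) c3 (by omega)
  have heq : C1 = C2 := by
    apply unique_nrc hK3 (by omega) hC1 hC2
    · exact Set.sdiff_subset.trans hK1
    · rintro x ⟨⟨hxK, -⟩, hxb⟩
      exact hK2 ⟨hxK, hxb⟩
  refine ⟨C1, hC1, fun x hx => ?_⟩
  by_cases hxa : x = a
  · rw [heq]
    apply hK2
    refine ⟨hx, ?_⟩
    intro hxb
    exact hab (hxa.symm.trans hxb)
  · exact hK1 ⟨hx, hxa⟩

theorem all_mono {m : ℕ} {n n' : ℕ} (hn : m + 2 + 3 ≤ n) (h : AllRational F (m + 2) n)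
    (hnn : n ≤ n') : AllRational F (m + 2) n' := by
  induction n', hnn using Nat.le_induction with
  | base => exact h
  | succ l hl ih => exact all_succ l (by omega) ih

/-- Main theorem. -/
theorem main [Finite F] (k : ℕ) (hk : 1 ≤ k) (hq : k < Nat.card F) :
    (∀ (n : ℕ) (K : Set (ℙ F (Fin k → F))), IsArc n K → (∃ C, IsNRC C ∧ K ⊆ C) →
      Nat.card {C : Set (ℙ F (Fin k → F)) // IsNRC C ∧ K ⊆ C} = curveCount (Nat.card F) k n) ∧
    ∃ n₀, k + 3 ≤ n₀ ∧ ∀ n, k ≤ n → n ≤ Nat.card F →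
      (AllRational F k n ↔ n ≤ k + 2 ∨ n₀ ≤ n) := by
  classical
  obtain rfl | ⟨m, rfl⟩ : k = 1 ∨ ∃ m, k = m + 2 := by
    rcases Nat.lt_or_ge k 2 with h | h
    · left; omega
    · right; exact ⟨k - 2, by omega⟩
  · refine ⟨fun n K hK _ => count_one n K hK, 4, le_rfl, fun n _ _ => ?_⟩
    refine ⟨fun _ => by omega, fun _ => all_one n⟩
  · refine ⟨fun n K hK h => count_ge_two hq n K hK h, ?_⟩
    by_cases hex : ∃ n, m + 2 + 3 ≤ n ∧ AllRational F (m + 2) n
    · refine ⟨Nat.find hex, (Nat.find_spec hex).1, fun n hn _ => ?_⟩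
      constructor
      · intro h
        by_cases hn2 : n ≤ m + 2 + 2
        · exact Or.inl hn2
        · exact Or.inr (Nat.find_min' hex ⟨by omega, h⟩)
      · rintro (h | h)
        · exact all_small hq n h
        · exact all_mono (Nat.find_spec hex).1 (Nat.find_spec hex).2 h
    · refine ⟨max (m + 2 + 3) (Nat.card F + 1), le_max_left _ _, fun n hn hnq => ?_⟩
      constructor
      · intro h
        by_cases hn2 : n ≤ m + 2 + 2
        · exact Or.inl hn2
        · exact absurd ⟨n, by omega, h⟩ hex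
      · rintro (h | h)
        · exact all_small hq n h
        · have := le_max_right (m + 2 + 3) (Nat.card F + 1)
          omega

/-- The number of normal rational curves through an arc. -/
theorem count_main [Finite F] (k : ℕ) (hk : 1 ≤ k) (hq : k < Nat.card F) (n : ℕ)
    (K : Set (ℙ F (Fin k → F))) (hK : IsArc n K) (h : n ≤ k + 2 ∨ ∃ C, IsNRC C ∧ K ⊆ C) :
    Nat.card {C : Set (ℙ F (Fin k → F)) // IsNRC C ∧ K ⊆ C} = curveCount (Nat.card F) k n := by
  obtain rfl | ⟨m, rfl⟩ : k = 1 ∨ ∃ m, k = m + 2 := by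
    rcases Nat.lt_or_ge k 2 with h | h
    · left; omega
    · right; exact ⟨k - 2, by omega⟩
  · exact count_one n K hK
  · rcases h with h | h
    · exact count_ge_two hq n K hK (all_small hq n h K hK)
    · exact count_ge_two hq n K hK h

end Pool.Agent.TH490.NRC
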