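import Pool.Agent.TH490.NRC.Arc

set_option autoImplicit false

namespace Pool.Agent.TH490.NRC

open Finset
open scoped LinearAlgebra.Projectivization

variable {F : Type*} [Field F] {m : ℕ}

/-- normal rational curves through `K` correspond to normalised parameters -/
theorem card_through [Finite F] (hq : m + 2 < Nat.card F)
    (A : (Fin (m + 2) → F) ≃ₗ[F] (Fin (m + 2) → F)) (K : Set (ℙ F (Fin (m + 2) → F)))
    (hv : ∀ i, ∀ h : A (Pi.single i 1) ≠ 0, Projectivization.mk F (A (Pi.single i 1)) h ∈ K) :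
    Nat.card {C : Set (ℙ F (Fin (m + 2) → F)) // IsNRC C ∧ K ⊆ C}
      = Nat.card {P : (Fin (m + 2) → F) × (Fin (m + 2) → F) //
          Nm P.1 P.2 ∧ K ⊆ curve A P.1 P.2} := by
  let φ : {P : (Fin (m + 2) → F) × (Fin (m + 2) → F) // Nm P.1 P.2 ∧ K ⊆ curve A P.1 P.2} →
      {C : Set (ℙ F (Fin (m + 2) → F)) // IsNRC C ∧ K ⊆ C} := fun P =>
    ⟨curve A P.1.1 P.1.2, curve_isNRC A P.2.1.1, P.2.2⟩
  have hφ : Function.Bijective φ := by
    constructor
    · rintro ⟨⟨X, Y⟩, h1, h2⟩ ⟨⟨X', Y'⟩, h1', h2'⟩ h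
      have he : curve A X Y = curve A X' Y' := congrArg Subtype.val h
      obtain ⟨e1, e2⟩ := norm_unique hq A h1 h1' he
      subst e1; subst e2
      rfl
    · rintro ⟨C, hC, hKC⟩
      obtain ⟨X, Y, hPI, hCe⟩ := exists_curve (by omega) A hC (fun i h => hKC (hv i h))
      obtain ⟨X', Y', hNm, he⟩ := exists_norm A hPI
      refine ⟨⟨(X', Y'), hNm, ?_⟩, ?_⟩
      · show K ⊆ curve A X' Y'
        rw [← he, ← hCe]; exact hKC
      · apply Subtype.ext
        show curve A X' Y' = C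
        rw [← he, ← hCe]
  exact (Nat.card_congr (Equiv.ofBijective φ hφ)).symm

theorem one_ne_zero_vec (A : (Fin (m + 2) → F) ≃ₗ[F] (Fin (m + 2) → F)) : A 1 ≠ 0 := by
  intro h
  have := A.map_eq_zero_iff.1 h
  exact one_ne_zero (congrFun this 0)

/-- a point `A w`, `w` without zero coordinates, on a normalised curve -/
theorem mem_iff_rep (A : (Fin (m + 2) → F) ≃ₗ[F] (Fin (m + 2) → F)) {X Y : Fin (m + 2) → F}
    (h : Nm X Y) (p : ℙ F (Fin (m + 2) → F)) (hw : ∀ i, A.symm p.rep i ≠ 0) :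
    p ∈ curve A X Y ↔
      ∀ i, (A.symm p.rep i)⁻¹ = (A.symm p.rep 0)⁻¹ * X i + (A.symm p.rep 1)⁻¹ * Y i := by
  have hA : A (A.symm p.rep) ≠ 0 := by
    rw [LinearEquiv.apply_symm_apply]; exact p.rep_nonzero
  rw [← mem_iff A h _ hw hA]
  have : Projectivization.mk F (A (A.symm p.rep)) hA = p := by
    obtain ⟨h1, h2⟩ := mk_eq_of_smul (F := F) 1
      ((LinearEquiv.apply_symm_apply A p.rep).trans (one_smul F _).symm) hA
    rw [h2, Projectivization.mk_rep]
  rw [this]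

theorem card_k [Finite F] (hq : m + 2 < Nat.card F) {K : Set (ℙ F (Fin (m + 2) → F))}
    (hK : IsArc (m + 2) K) :
    Nat.card {C : Set (ℙ F (Fin (m + 2) → F)) // IsNRC C ∧ K ⊆ C}
      = (Nat.card F - 1) ^ m * (Nat.card F - 1).descFactorial m := by
  obtain ⟨f, hf, hfK⟩ := hK.exists_enum (by omega)
  have hfm : ∀ i, f i ∈ K := fun i => hfK ▸ ⟨i, rfl⟩
  obtain ⟨A, hA⟩ := hK.exists_Fr hf hfm
  rw [card_through hq A K (fun i h => by rw [hA.mk_eq i h]; exact hfm i), ← card_norm]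
  apply Nat.card_congr
  apply Equiv.subtypeEquivRight
  rintro ⟨X, Y⟩
  constructor
  · exact fun h => h.1
  · intro h
    refine ⟨h, ?_⟩
    rw [← hfK]
    rintro _ ⟨i, rfl⟩
    rw [← hA.mk_eq i (ne_single A i)]
    exact mem_vertex A h.1 i (ne_single A i)

theorem card_k1 [Finite F] (hq : m + 2 < Nat.card F) {K : Set (ℙ F (Fin (m + 2) → F))}
    (hK : IsArc (m + 2 + 1) K) :
    Nat.card {C : Set (ℙ F (Fin (m + 2) → F)) // IsNRC C ∧ K ⊆ C}
      = (Nat.card F - 2).descFactorial m := by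
  obtain ⟨g, hg, hgK⟩ := hK.exists_enum (by omega)
  have hgm : ∀ i, g i ∈ K := fun i => hgK ▸ ⟨i, rfl⟩
  set f : Fin (m + 2) → ℙ F (Fin (m + 2) → F) := fun i => g i.castSucc with hf'
  set p := g (Fin.last (m + 2)) with hp'
  have hf : Function.Injective f := fun i j h => Fin.castSucc_injective _ (hg h)
  have hfm : ∀ i, f i ∈ K := fun i => hgm _
  have hpf : ∀ i, f i ≠ p := fun i h => (Fin.castSucc_lt_last i).ne (hg h)
  obtain ⟨A, hA, hA1⟩ := exists_Fr_one hK hf hfm (hgm (Fin.last (m + 2))) hpf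
  rw [card_through hq A K (fun i h => by rw [hA.mk_eq i h]; exact hfm i), ← card_norm1]
  apply Nat.card_congr
  apply Equiv.subtypeEquivRight
  rintro ⟨X, Y⟩
  have hw1 : A.symm p.rep = 1 := by rw [hA1, LinearEquiv.symm_apply_apply]
  have hw : ∀ i, A.symm p.rep i ≠ 0 := by
    intro i; rw [hw1]; exact one_ne_zero
  have key : ∀ h : Nm X Y, (p ∈ curve A X Y ↔ ∀ i, X i + Y i = 1) := by
    intro h
    rw [mem_iff_rep A h p hw, hw1]
    constructor
    · intro h2 i
      have := h2 i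
      simp only [Pi.one_apply, inv_one, one_mul] at this
      exact this.symm
    · intro h2 i
      simp only [Pi.one_apply, inv_one, one_mul]
      exact (h2 i).symm
  constructor
  · rintro ⟨h, h2⟩
    exact ⟨h, (key h).1 (h2 (hgm _))⟩
  · rintro ⟨h, h2⟩
    refine ⟨h, ?_⟩
    rw [← hgK]
    rintro _ ⟨i, rfl⟩
    refine Fin.lastCases ?_ (fun i => ?_) i
    · exact (key h).2 h2
    · have e : g i.castSucc = f i := rfl
      rw [e, ← hA.mk_eq i (ne_single A i)]
      exact mem_vertex A h.1 i (ne_single A i)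

/-- the common set-up for an arc with at least `k + 2` points -/
theorem setup {n : ℕ} {K : Set (ℙ F (Fin (m + 2) → F))} (hK : IsArc n K) (hn : m + 2 + 2 ≤ n) :
    ∃ (f : Fin (m + 2) → ℙ F (Fin (m + 2) → F)) (p p' : ℙ F (Fin (m + 2) → F))
      (A : (Fin (m + 2) → F) ≃ₗ[F] (Fin (m + 2) → F)),
      (∀ i, f i ∈ K) ∧ p ∈ K ∧ p' ∈ K ∧ Fr A f ∧ p.rep = A 1 ∧
      (∀ i, A.symm p'.rep i ≠ 0) ∧ (∀ i j, i ≠ j → A.symm p'.rep i ≠ A.symm p'.rep j) ∧
      (n = m + 2 + 2 → ∀ x ∈ K, (∃ i, f i = x) ∨ x = p ∨ x = p') := by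
  obtain ⟨g, hg, hgK⟩ := hK.exists_enum (by omega)
  have hgm : ∀ i, g i ∈ K := fun i => hgK ▸ ⟨i, rfl⟩
  set f : Fin (m + 2) → ℙ F (Fin (m + 2) → F) := fun i => g ⟨i, by omega⟩ with hf'
  set p := g ⟨m + 2, by omega⟩ with hp'
  set p' := g ⟨m + 3, by omega⟩ with hp''
  have hf : Function.Injective f := fun i j h => by
    have := congrArg Fin.val (hg h)
    exact Fin.ext this
  have hfm : ∀ i, f i ∈ K := fun i => hgm _
  have hpf : ∀ i, f i ≠ p := fun i h => by
    have := congrArg Fin.val (hg h)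
    simp only at this
    omega
  have hpf' : ∀ i, f i ≠ p' := fun i h => by
    have := congrArg Fin.val (hg h)
    simp only at this
    omega
  have hpp : p ≠ p' := fun h => by
    have := congrArg Fin.val (hg h)
    simp only at this
    omega
  obtain ⟨A, hA, hA1⟩ := exists_Fr_one hK hf hfm (hgm _) hpf
  refine ⟨f, p, p', A, hfm, hgm _, hgm _, hA, hA1,
    fun i => coord_ne_zero hK hf hfm hA (hgm _) hpf' i,
    fun i j hij => coord_inj hK hf hfm hA (hgm _) (hgm _) hpf hpf' hpp (c := 1)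
      (by rw [one_smul]; exact hA1) hij, ?_⟩
  intro hn' x hx
  rw [← hgK] at hx
  obtain ⟨i, rfl⟩ := hx
  by_cases h1 : (i : ℕ) < m + 2
  · left
    exact ⟨⟨i, h1⟩, rfl⟩
  · right
    by_cases h2 : (i : ℕ) = m + 2
    · left
      rw [hp']
      congr 1
      exact Fin.ext h2
    · right
      rw [hp'']
      congr 1
      apply Fin.ext
      have := i.2
      simp only
      omega

theorem sum_one_of_mem {A : (Fin (m + 2) → F) ≃ₗ[F] (Fin (m + 2) → F)} {X Y : Fin (m + 2) → F}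
    (h : Nm X Y) {p : ℙ F (Fin (m + 2) → F)} (hp : p.rep = A 1) :
    p ∈ curve A X Y ↔ ∀ i, X i + Y i = 1 := by
  have hw1 : A.symm p.rep = 1 := by rw [hp, LinearEquiv.symm_apply_apply]
  have hw : ∀ i, A.symm p.rep i ≠ 0 := by
    intro i; rw [hw1]; exact one_ne_zero
  rw [mem_iff_rep A h p hw, hw1]
  constructor
  · intro h2 i
    have := h2 i
    simp only [Pi.one_apply, inv_one, one_mul] at this
    exact this.symm
  · intro h2 i
    simp only [Pi.one_apply, inv_one, one_mul]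
    exact (h2 i).symm

theorem unique_nrc {n : ℕ} {K C C' : Set (ℙ F (Fin (m + 2) → F))} (hK : IsArc n K)
    (hn : m + 2 + 2 ≤ n) (hC : IsNRC C) (hC' : IsNRC C') (hKC : K ⊆ C) (hKC' : K ⊆ C') :
    C = C' := by
  obtain ⟨f, p, p', A, hfm, hp, hp', hA, hA1, hw, hinj, -⟩ := setup hK hn
  have hvert : ∀ i, ∀ h : A (Pi.single i 1) ≠ 0,
      Projectivization.mk F (A (Pi.single i 1)) h ∈ K := by
    intro i h; rw [hA.mk_eq i h]; exact hfm i
  obtain ⟨X0, Y0, hPI, hCe⟩ := exists_curve (by omega) A hC (fun i h => hKC (hvert i h))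
  obtain ⟨X, Y, hNm, he⟩ := exists_norm A hPI
  obtain ⟨X0', Y0', hPI', hCe'⟩ := exists_curve (by omega) A hC' (fun i h => hKC' (hvert i h))
  obtain ⟨X', Y', hNm', he'⟩ := exists_norm A hPI'
  rw [he] at hCe
  rw [he'] at hCe'
  have hs : ∀ i, X i + Y i = 1 := (sum_one_of_mem hNm hA1).1 (hCe ▸ hKC hp)
  have hs' : ∀ i, X' i + Y' i = 1 := (sum_one_of_mem hNm' hA1).1 (hCe' ▸ hKC' hp)
  have hl := (mem_iff_rep A hNm p' hw).1 (hCe ▸ hKC hp')
  have hl' := (mem_iff_rep A hNm' p' hw).1 (hCe' ▸ hKC' hp')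
  have hw01 : (A.symm p'.rep 0)⁻¹ ≠ (A.symm p'.rep 1)⁻¹ := by
    intro h
    exact hinj 0 1 zero_ne_one' (inv_injective h)
  have hX : X = X' := by
    funext i
    have h3 : ((A.symm p'.rep 0)⁻¹ - (A.symm p'.rep 1)⁻¹) * (X i - X' i) = 0 := by
      linear_combination -(hl i) + hl' i - (A.symm p'.rep 1)⁻¹ * hs i
        + (A.symm p'.rep 1)⁻¹ * hs' i
    rcases mul_eq_zero.1 h3 with h4 | h4
    · exact absurd (sub_eq_zero.1 h4) hw01
    · exact sub_eq_zero.1 h4
  have hY : Y = Y' := by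
    funext i
    have h5 := congrFun hX i
    linear_combination hs i - hs' i - h5
  rw [hCe, hCe', hX, hY]

theorem exists_nrc {K : Set (ℙ F (Fin (m + 2) → F))} (hK : IsArc (m + 2 + 2) K) :
    ∃ C, IsNRC C ∧ K ⊆ C := by
  obtain ⟨f, p, p', A, hfm, hp, hp', hA, hA1, hw, hinj, hall⟩ := setup hK le_rfl
  set w := A.symm p'.rep with hwdef
  have hw01 : (w 0)⁻¹ - (w 1)⁻¹ ≠ 0 := by
    intro h
    exact hinj 0 1 zero_ne_one' (inv_injective (sub_eq_zero.1 h))
  set X : Fin (m + 2) → F := fun i => ((w i)⁻¹ - (w 1)⁻¹) / ((w 0)⁻¹ - (w 1)⁻¹) with hX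
  set Y : Fin (m + 2) → F := fun i => 1 - X i with hY
  have hXmul : ∀ i, X i * ((w 0)⁻¹ - (w 1)⁻¹) = (w i)⁻¹ - (w 1)⁻¹ := fun i =>
    div_mul_cancel₀ _ hw01
  have hNm : Nm X Y := by
    refine ⟨?_, ?_, ?_, ?_, ?_⟩
    · intro i j hij h0
      apply hinj i j hij
      apply inv_injective
      have h1 : X i = X j := by
        simp only [hY] at h0
        linear_combination h0
      have h2 := hXmul i
      have h3 := hXmul j
      rw [h1] at h2
      linear_combination -h2 + h3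
    · exact div_self hw01
    · simp [hX]
    · simp only [hY]
      have : X 0 = 1 := div_self hw01
      rw [this, sub_self]
    · simp [hY, hX]
  refine ⟨curve A X Y, curve_isNRC A hNm.1, ?_⟩
  intro x hx
  rcases hall rfl x hx with ⟨i, rfl⟩ | rfl | rfl
  · rw [← hA.mk_eq i (ne_single A i)]
    exact mem_vertex A hNm.1 i (ne_single A i)
  · exact (sum_one_of_mem hNm hA1).2 (fun i => by simp [hY])
  · rw [mem_iff_rep A hNm _ hw]
    intro i
    have h2 := hXmul i
    simp only [hY]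
    linear_combination -h2

end Pool.Agent.TH490.NRC
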