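import Pool.Agent.TH490.NRC.Curve

set_option autoImplicit false

namespace Pool.Agent.TH490.NRC

open Finset
open scoped LinearAlgebra.Projectivization

variable {F : Type*} [Field F] {m : ℕ}

/-- normalised parameters -/
def Nm (X Y : Fin (m + 2) → F) : Prop := PI X Y ∧ X 0 = 1 ∧ X 1 = 0 ∧ Y 0 = 0 ∧ Y 1 = 1

theorem Phi_change {k : ℕ} (X Y : Fin k → F) (p q r s a b : F) :
    Phi (fun i => p * X i + q * Y i) (fun i => r * X i + s * Y i) a b
      = Phi X Y (a * s - b * q) (b * p - a * r) := by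
  ext i
  simp only [Phi]
  exact prod_congr rfl (fun j _ => by ring)

theorem curve_change {k : ℕ} (A : (Fin k → F) ≃ₗ[F] (Fin k → F)) (X Y : Fin k → F)
    (p q r s : F) (hd : p * s - q * r ≠ 0) :
    curve A (fun i => p * X i + q * Y i) (fun i => r * X i + s * Y i) = curve A X Y := by
  ext P
  constructor
  · rintro ⟨a, b, h, rfl⟩
    have e := congrArg A (Phi_change X Y p q r s a b)
    obtain ⟨hw, hh⟩ := mk_eq_of_smul (F := F) 1 (e.trans (one_smul F _).symm) h
    exact ⟨_, _, hw, hh⟩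
  · rintro ⟨a, b, h, rfl⟩
    set D := p * s - q * r with hD
    have e := congrArg A (Phi_change X Y p q r s ((p * a + q * b) / D) ((r * a + s * b) / D))
    have h1 : (p * a + q * b) / D * s - (r * a + s * b) / D * q = a := by
      field_simp
      rw [hD]; ring
    have h2 : (r * a + s * b) / D * p - (p * a + q * b) / D * r = b := by
      field_simp
      rw [hD]; ring
    rw [h1, h2] at e
    obtain ⟨hw, hh⟩ := mk_eq_of_smul (F := F) 1 (e.symm.trans (one_smul F _).symm) h
    exact ⟨_, _, hw, hh⟩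

theorem exists_norm (A : (Fin (m + 2) → F) ≃ₗ[F] (Fin (m + 2) → F)) {X Y : Fin (m + 2) → F}
    (h : PI X Y) : ∃ X' Y' : Fin (m + 2) → F, Nm X' Y' ∧ curve A X Y = curve A X' Y' := by
  have h01 : (0 : Fin (m + 2)) ≠ 1 := by
    intro h; simpa using congrArg Fin.val h
  set D := X 0 * Y 1 - Y 0 * X 1 with hD
  have hD0 : D ≠ 0 := h 0 1 h01
  have hdet : (Y 1 / D) * (X 0 / D) - (-(X 1 / D)) * (-(Y 0 / D)) ≠ 0 := by
    have : (Y 1 / D) * (X 0 / D) - (-(X 1 / D)) * (-(Y 0 / D)) = 1 / D := by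
      field_simp
      rw [hD]; ring
    rw [this]
    exact one_div_ne_zero hD0
  refine ⟨fun i => (Y 1 / D) * X i + (-(X 1 / D)) * Y i,
    fun i => (-(Y 0 / D)) * X i + (X 0 / D) * Y i, ⟨?_, ?_, ?_, ?_, ?_⟩,
    (curve_change A X Y _ _ _ _ hdet).symm⟩
  · intro i j hij
    have e : ((Y 1 / D) * X i + (-(X 1 / D)) * Y i) * ((-(Y 0 / D)) * X j + (X 0 / D) * Y j)
        - ((-(Y 0 / D)) * X i + (X 0 / D) * Y i) * ((Y 1 / D) * X j + (-(X 1 / D)) * Y j)
        = ((Y 1 / D) * (X 0 / D) - (-(X 1 / D)) * (-(Y 0 / D))) * (X i * Y j - Y i * X j) := by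
      ring
    simp only
    rw [e]
    exact mul_ne_zero hdet (h i j hij)
  · simp only
    field_simp
    rw [hD]; ring
  · simp only
    field_simp
    ring
  · simp only
    field_simp
    ring
  · simp only
    field_simp
    rw [hD]; ring

theorem Phi_mul (X Y : Fin (m + 2) → F) (a b : F) (i : Fin (m + 2)) :
    (a * Y i - b * X i) * Phi X Y a b i = ∏ j, (a * Y j - b * X j) :=
  mul_prod_erase univ (fun j => a * Y j - b * X j) (mem_univ i)

/-- A point with all coordinates nonzero lies on the normalised curve iff its inverse lies on the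
line of the inverses. -/
theorem mem_iff (A : (Fin (m + 2) → F) ≃ₗ[F] (Fin (m + 2) → F)) {X Y : Fin (m + 2) → F}
    (h : Nm X Y) (w : Fin (m + 2) → F) (hw : ∀ i, w i ≠ 0) (hA : A w ≠ 0) :
    Projectivization.mk F (A w) hA ∈ curve A X Y ↔
      ∀ i, (w i)⁻¹ = (w 0)⁻¹ * X i + (w 1)⁻¹ * Y i := by
  obtain ⟨hPI, hX0, hX1, hY0, hY1⟩ := h
  have h01 : (0 : Fin (m + 2)) ≠ 1 := by
    intro h; simpa using congrArg Fin.val h
  constructor
  · rintro ⟨a, b, h0, he⟩
    rw [Projectivization.mk_eq_mk_iff] at he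
    obtain ⟨c, hc⟩ := he
    rw [Units.smul_def, ← map_smul] at hc
    have hc1 : ∀ i, (c : F) * Phi X Y a b i = w i := by
      intro i
      have := congrFun (A.injective hc) i
      simpa using this
    have hPhi : ∀ i, Phi X Y a b i ≠ 0 := by
      intro i h
      apply hw i
      rw [← hc1 i, h, mul_zero]
    have hbr : ∀ i, a * Y i - b * X i ≠ 0 := by
      intro i hi
      obtain ⟨j, hj⟩ : ∃ j : Fin (m + 2), j ≠ i := exists_ne i
      apply hPhi j
      exact prod_eq_zero (mem_erase.2 ⟨Ne.symm hj, mem_univ _⟩) hi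
    set P := ∏ j, (a * Y j - b * X j) with hP
    have hP0 : P ≠ 0 := prod_ne_zero_iff.2 (fun j _ => hbr j)
    have key : ∀ i, (w i)⁻¹ = ((c : F) * P)⁻¹ * (a * Y i - b * X i) := by
      intro i
      have h1 := Phi_mul X Y a b i
      have h2 := hc1 i
      have h3 : (w i) * (a * Y i - b * X i) = c * P := by
        rw [hP, ← h1, ← h2]; ring
      have h4 : (c : F) * P ≠ 0 := mul_ne_zero c.ne_zero hP0
      have h5 := hw i
      field_simp
      linear_combination -h3
    intro i
    rw [key i, key 0, key 1, hX0, hX1, hY0, hY1]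
    ring
  · intro hline
    have hPhi : ∀ i, Phi X Y (w 1)⁻¹ (-(w 0)⁻¹) i = (∏ j, w j)⁻¹ * w i := by
      intro i
      have h1 := Phi_mul X Y (w 1)⁻¹ (-(w 0)⁻¹) i
      have h2 : ∀ j, (w 1)⁻¹ * Y j - (-(w 0)⁻¹) * X j = (w j)⁻¹ := by
        intro j; rw [hline j]; ring
      rw [prod_congr rfl (fun j _ => h2 j), h2 i, prod_inv_distrib] at h1
      rw [← h1]
      have := hw i
      field_simp
    have hP : (∏ j, w j) ≠ 0 := prod_ne_zero_iff.2 (fun j _ => hw j)
    have e : A w = (∏ j, w j) • A (Phi X Y (w 1)⁻¹ (-(w 0)⁻¹)) := by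
      rw [← map_smul]
      congr 1
      ext i
      rw [Pi.smul_apply, smul_eq_mul, hPhi i, mul_inv_cancel_left₀ hP]
    obtain ⟨hv, hh⟩ := mk_eq_of_smul _ e hA
    exact ⟨_, _, hv, hh⟩

theorem mem_vertex (A : (Fin (m + 2) → F) ≃ₗ[F] (Fin (m + 2) → F)) {X Y : Fin (m + 2) → F}
    (h : PI X Y) (i : Fin (m + 2)) (hA : A (Pi.single i 1) ≠ 0) :
    Projectivization.mk F (A (Pi.single i 1)) hA ∈ curve A X Y := by
  obtain ⟨d, hd, he⟩ := Phi_self h i
  have e : A (Pi.single i 1) = d⁻¹ • A (Phi X Y (X i) (Y i)) := by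
    rw [he, map_smul, smul_smul, inv_mul_cancel₀ hd, one_smul]
  obtain ⟨hv, hh⟩ := mk_eq_of_smul _ e hA
  exact ⟨_, _, hv, hh⟩

/-- the normalised parameters are determined by the curve if `q > k` -/
theorem norm_unique [Finite F] (hq : m + 2 < Nat.card F)
    (A : (Fin (m + 2) → F) ≃ₗ[F] (Fin (m + 2) → F)) {X Y X' Y' : Fin (m + 2) → F}
    (h : Nm X Y) (h' : Nm X' Y') (he : curve A X Y = curve A X' Y') : X = X' ∧ Y = Y' := by
  classical
  haveI : Fintype F := Fintype.ofFinite F
  have hPI := h.1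
  obtain ⟨-, hX0, hX1, hY0, hY1⟩ := h
  -- good parameters
  set bad : Finset F := (univ.erase (0 : Fin (m + 2))).image (fun j => X j / Y j) with hbad
  have hcard : bad.card ≤ m + 1 := by
    refine card_image_le.trans ?_
    rw [card_erase_of_mem (mem_univ _), card_univ, Fintype.card_fin]
    omega
  have h2 : 1 < (badᶜ).card := by
    rw [card_compl, ← Nat.card_eq_fintype_card]; omega
  obtain ⟨t, ht, t', ht', htt⟩ := one_lt_card.1 h2
  have hgood : ∀ t ∈ badᶜ, ∀ i, t * Y' i - X' i = t * Y i - X i := by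
    intro t ht
    have hbr : ∀ j, t * Y j - X j ≠ 0 := by
      intro j hj
      by_cases hj0 : j = 0
      · subst hj0
        rw [hY0, hX0] at hj
        simp at hj
      · have hYj : Y j ≠ 0 := by
          intro hy
          have := hPI 0 j (Ne.symm hj0)
          rw [hX0, hY0, hy] at this
          simp at this
        apply mem_compl.1 ht
        rw [hbad, mem_image]
        refine ⟨j, mem_erase.2 ⟨hj0, mem_univ _⟩, ?_⟩
        rw [div_eq_iff hYj]
        linear_combination -hj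
    have hw : ∀ i, (t * Y i - X i)⁻¹ ≠ 0 := fun i => inv_ne_zero (hbr i)
    have hA : A (fun i => (t * Y i - X i)⁻¹) ≠ 0 := by
      intro h0
      have := A.map_eq_zero_iff.1 h0
      exact hw 0 (congrFun this 0)
    have hmem : Projectivization.mk F (A (fun i => (t * Y i - X i)⁻¹)) hA ∈ curve A X Y := by
      rw [mem_iff A ⟨hPI, hX0, hX1, hY0, hY1⟩ _ hw hA]
      intro i
      simp only [inv_inv, hX0, hX1, hY0, hY1]
      ring
    rw [he, mem_iff A h' _ hw hA] at hmem
    intro i
    have h1 := hmem i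
    simp only [inv_inv, hX0, hX1, hY0, hY1] at h1
    rw [h1]
    ring
  have e1 := hgood t ht
  have e2 := hgood t' ht'
  have hY : ∀ i, Y i = Y' i := by
    intro i
    have h3 : (t - t') * (Y i - Y' i) = 0 := by
      linear_combination -(e1 i) + e2 i
    rcases mul_eq_zero.1 h3 with h4 | h4
    · exact absurd (sub_eq_zero.1 h4) htt
    · exact sub_eq_zero.1 h4
  refine ⟨funext fun i => ?_, funext hY⟩
  have h5 := e1 i
  rw [hY i] at h5
  linear_combination h5

end Pool.Agent.TH490.NRC
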